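import Mathlib
import Pool.Agent.H740R3.BQStmts
import Pool.Agent.H740R3.Biorth

set_option autoImplicit false
set_option maxHeartbeats 4000000
set_option synthInstance.maxHeartbeats 400000

/-! Project H740-BQ, task T10: a biorthogonal sequence with dense span. -/

namespace Pool.Agent.H740R3.BQ

universe u

theorem t10 : T10.{u} := by
  intro X _ _ _ hX
  obtain ⟨e, g, h1, h2, h3⟩ := Pool.Agent.H740R3.Biorth.exists_biorth ℂ X
  have hinf : {i | e i ≠ 0}.Infinite := by
    by_contra hfin
    rw [Set.not_infinite] at hfin
    apply hX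
    have hsub : Set.range e ⊆ insert 0 (e '' {i | e i ≠ 0}) := by
      rintro _ ⟨i, rfl⟩
      by_cases h : e i = 0
      · rw [h]; exact Set.mem_insert _ _
      · exact Set.mem_insert_of_mem _ ⟨i, h, rfl⟩
    have hfr : (Set.range e).Finite := ((hfin.image e).insert 0).subset hsub
    have hfd : FiniteDimensional ℂ (Submodule.span ℂ (Set.range e)) :=
      FiniteDimensional.span_of_finite ℂ hfr
    have hcl : IsClosed (Submodule.span ℂ (Set.range e) : Set X) :=
      Submodule.closed_of_finiteDimensional _
    have htop : Submodule.span ℂ (Set.range e) = ⊤ := by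
      rw [Submodule.eq_top_iff']
      intro x
      have := h3 x
      rw [hcl.closure_eq] at this
      exact this
    rw [htop] at hfd
    exact Module.Finite.equiv (Submodule.topEquiv (R := ℂ) (M := X))
  refine ⟨fun k => e (Nat.nth (fun i => e i ≠ 0) k), fun k => g (Nat.nth (fun i => e i ≠ 0) k),
    ?_, ?_⟩
  · intro i j
    by_cases hij : i = j
    · subst hij
      rw [if_pos rfl]
      have hne : e (Nat.nth (fun i => e i ≠ 0) i) ≠ 0 := Nat.nth_mem_of_infinite hinf i
      rcases h2 (Nat.nth (fun i => e i ≠ 0) i) with h | ⟨h, -⟩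
      · exact h
      · exact absurd h hne
    · rw [if_neg hij]
      exact h1 _ _ (fun h => hij (Nat.nth_injective hinf h))
  · refine h3.mono ?_
    apply SetLike.coe_subset_coe.mpr
    rw [Submodule.span_le]
    rintro _ ⟨i, rfl⟩
    by_cases h : e i = 0
    · rw [h]; exact Submodule.zero_mem _
    · apply Submodule.subset_span
      have hr := Nat.range_nth_of_infinite hinf
      have hi : i ∈ Set.range (Nat.nth fun i => e i ≠ 0) := by
        rw [hr]; exact h
      obtain ⟨k, hk⟩ := hi
      exact ⟨k, congrArg e hk⟩

end Pool.Agent.H740R3.BQ
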